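import Pool.Agent.Lib.MP_5d4768_an.Main

set_option autoImplicit false

/-!
# MP_5d4768_an: no nonzero continuous homomorphisms between `L^p` crossed products by minimal
homeomorphisms for different exponents

The definitions are in `Pool/Agent/Lib/MP_5d4768_an/Defs.lean`:

* `Cc h` is the algebra `C_c(ℤ, C(X), α)`, realised as Mathlib's skew monoid algebra over `C(X)`
  with `(f u_m) (g u_n) = (f * α^m(g)) u_{m+n}`, `α^n(f) = f ∘ h^{-n}`;
* `Rep X E` is the type of nondegenerate contractive homomorphisms `C(X) → B(E)`;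
* `CovRep h E` is the type of contractive covariant representations on `E`, and
  `CovRep.integrated` is the integrated form `a ↦ ∑ π(a(n)) v^n`;
* `IsRegular π₀ ρ` says that `ρ` is the regular representation given by `π₀`;
* `fullSeminorm p h` and `redSeminorm p h` are the norms of `F^p(ℤ, X, h)` and `F^p_r(ℤ, X, h)`;
* `FullAlg p h` and `RedAlg p h` are the completions of `Cc h` in these norms;
* `OnlyZeroHom A B` says that every continuous complex-linear multiplicative map `A → B` is zero.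
-/

open scoped ENNReal

namespace Pool.Agent.Results.MP_5d4768_an.NoHomomorphism

open Pool.Agent.Lib.MP_5d4768_an

/-- For `p₁ ≠ p₂` in `[1, ∞)` and minimal homeomorphisms `h₁`, `h₂` of infinite compact metric
spaces, every continuous homomorphism from `F^{p₁}(ℤ, X₁, h₁)` into `F^{p₂}(ℤ, X₂, h₂)` or into
`F^{p₂}_r(ℤ, X₂, h₂)` is zero. -/
theorem result (p₁ p₂ : ℝ≥0∞) [Fact (1 ≤ p₁)] [Fact (1 ≤ p₂)] (hp₁ : p₁ ≠ ∞) (hp₂ : p₂ ≠ ∞)
    (hne : p₁ ≠ p₂) (X₁ X₂ : Type*) [MetricSpace X₁] [CompactSpace X₁] [Infinite X₁]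
    [MetricSpace X₂] [CompactSpace X₂] [Infinite X₂] (h₁ : X₁ ≃ₜ X₁) (h₂ : X₂ ≃ₜ X₂)
    (hmin₁ : IsMinimalHomeo h₁) (_hmin₂ : IsMinimalHomeo h₂) :
    OnlyZeroHom (FullAlg p₁ h₁) (FullAlg p₂ h₂) ∧ OnlyZeroHom (FullAlg p₁ h₁) (RedAlg p₂ h₂) :=
  ⟨hom_full_eq_zero hp₁ hp₂ hne (free_of_minimal hmin₁),
    hom_red_eq_zero hp₁ hp₂ hne (free_of_minimal hmin₁)⟩

end Pool.Agent.Results.MP_5d4768_an.NoHomomorphism
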